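import Pool.Agent.Lib.MP_c534e4_co.H96.Dens

/-!
# Moments and small-interval bounds for exponential laws
-/

set_option autoImplicit false

namespace Pool.Agent.Lib.MP_c534e4_co.H96

open MeasureTheory ProbabilityTheory
open scoped ENNReal

lemma expMeasure_eq (r : ℝ) : expMeasure r = volume.withDensity (exponentialPDF r) := rfl

lemma measurable_expPDF (r : ℝ) : Measurable (exponentialPDF r) :=
  (measurable_exponentialPDFReal r).ennreal_ofReal

lemma integrableOn_pow_exp {r : ℝ} (hr : 0 < r) (n : ℕ) :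
    IntegrableOn (fun t : ℝ => t ^ n * Real.exp (-(r * t))) (Set.Ioi 0) := by
  have key := Real.integral_rpow_mul_exp_neg_mul_Ioi (a := (n : ℝ) + 1) (r := r) (by positivity) hr
  have h1 : IntegrableOn (fun t : ℝ => t ^ ((n : ℝ) + 1 - 1) * Real.exp (-(r * t))) (Set.Ioi 0) :=
    .of_integral_ne_zero (by rw [key]; positivity)
  refine h1.congr_fun ?_ measurableSet_Ioi
  intro t _
  simp

lemma integral_pow_exp {r : ℝ} (hr : 0 < r) (n : ℕ) :
    ∫ t : ℝ in Set.Ioi 0, t ^ n * Real.exp (-(r * t)) = (1 / r) ^ (n + 1) * (n.factorial : ℝ) := by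
  have key := Real.integral_rpow_mul_exp_neg_mul_Ioi (a := (n : ℝ) + 1) (r := r) (by positivity) hr
  rw [Real.Gamma_nat_eq_factorial] at key
  have h2 : (1 / r) ^ ((n : ℝ) + 1) = (1 / r) ^ (n + 1) := by
    rw [← Real.rpow_natCast]
    push_cast
    rfl
  rw [h2] at key
  rw [← key]
  apply setIntegral_congr_fun measurableSet_Ioi
  intro t _
  simp

lemma integrable_exp_iff {r : ℝ} (hr : 0 < r) (n : ℕ) :
    Integrable (fun t : ℝ => t ^ n) (expMeasure r) := by
  rw [expMeasure_eq]
  rw [integrable_withDensity_iff_integrable_smul' (measurable_expPDF r)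
    (Filter.Eventually.of_forall fun x => ENNReal.ofReal_lt_top)]
  have h1 : (fun x : ℝ => (exponentialPDF r x).toReal • x ^ n) =ᵐ[volume]
      (Set.Ioi (0 : ℝ)).indicator (fun t : ℝ => r * (t ^ n * Real.exp (-(r * t)))) := by
    have h0 : ∀ᵐ x : ℝ, x ≠ 0 := by
      rw [ae_iff]
      simp
    filter_upwards [h0] with x hx
    rcases lt_or_gt_of_ne hx with h | h
    · rw [Set.indicator_of_notMem (by simp [h.le]), exponentialPDF_of_neg h]
      simp
    · rw [Set.indicator_of_mem (by exact h), exponentialPDF_of_nonneg h.le,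
        ENNReal.toReal_ofReal (by positivity)]
      simp only [smul_eq_mul]
      ring
  rw [integrable_congr h1, integrable_indicator_iff measurableSet_Ioi]
  exact (integrableOn_pow_exp hr n).const_mul r

lemma integral_exp_pow {r : ℝ} (hr : 0 < r) (n : ℕ) :
    ∫ t, t ^ n ∂(expMeasure r) = (n.factorial : ℝ) / r ^ n := by
  rw [expMeasure_eq, integral_withDensity_eq_integral_toReal_smul (measurable_expPDF r)
    (Filter.Eventually.of_forall fun x => ENNReal.ofReal_lt_top)]
  have h1 : (fun x : ℝ => (exponentialPDF r x).toReal • x ^ n) =ᵐ[volume]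
      (Set.Ioi (0 : ℝ)).indicator (fun t : ℝ => r * (t ^ n * Real.exp (-(r * t)))) := by
    have h0 : ∀ᵐ x : ℝ, x ≠ 0 := by
      rw [ae_iff]
      simp
    filter_upwards [h0] with x hx
    rcases lt_or_gt_of_ne hx with h | h
    · rw [Set.indicator_of_notMem (by simp [h.le]), exponentialPDF_of_neg h]
      simp
    · rw [Set.indicator_of_mem (by exact h), exponentialPDF_of_nonneg h.le,
        ENNReal.toReal_ofReal (by positivity)]
      simp only [smul_eq_mul]
      ring
  rw [integral_congr_ae h1, integral_indicator measurableSet_Ioi, integral_const_mul,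
    integral_pow_exp hr, one_div, inv_pow, pow_succ]
  field_simp

lemma memLp_two_exp {r : ℝ} (hr : 0 < r) (c : ℝ) :
    MemLp (fun t : ℝ => c * t) 2 (expMeasure r) := by
  have h : MemLp (fun t : ℝ => t) 2 (expMeasure r) := by
    rw [memLp_two_iff_integrable_sq (by fun_prop)]
    exact integrable_exp_iff hr 2
  exact h.const_mul c

lemma integral_exp_lin {r : ℝ} (hr : 0 < r) (c : ℝ) :
    ∫ t, c * t ∂(expMeasure r) = c / r := by
  rw [integral_const_mul]
  have h := integral_exp_pow hr 1
  simp only [pow_one, Nat.factorial_one, Nat.cast_one] at h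
  rw [h]
  ring

lemma variance_exp_lin {r : ℝ} (hr : 0 < r) (c : ℝ) :
    Var[fun t : ℝ => c * t; expMeasure r] = (c / r) ^ 2 := by
  have := isProbabilityMeasure_expMeasure hr
  rw [variance_eq_sub (memLp_two_exp hr c), integral_exp_lin hr]
  have h2 : ∫ t, ((fun t : ℝ => c * t) ^ 2) t ∂(expMeasure r) = c ^ 2 * (2 / r ^ 2) := by
    have h3 := integral_exp_pow hr 2
    simp only [Nat.factorial_two, Nat.cast_ofNat] at h3
    rw [← h3, ← integral_const_mul]
    apply integral_congr_ae
    apply Filter.Eventually.of_forall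
    intro t
    simp only [Pi.pow_apply]
    ring
  rw [h2]
  field_simp
  ring

lemma expPDF_le {r : ℝ} (hr : 0 < r) (x : ℝ) : exponentialPDF r x ≤ ENNReal.ofReal r := by
  rw [exponentialPDF_eq]
  apply ENNReal.ofReal_le_ofReal
  split_ifs with h
  · have : Real.exp (-(r * x)) ≤ 1 := by
      rw [Real.exp_le_one_iff]
      have := mul_nonneg hr.le h
      linarith
    nlinarith
  · exact hr.le

lemma expMeasure_Icc_le {r : ℝ} (hr : 0 < r) (a b : ℝ) :
    expMeasure r (Set.Icc a b) ≤ ENNReal.ofReal (r * (b - a)) := by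
  rw [expMeasure_apply measurableSet_Icc]
  calc ∫⁻ x in Set.Icc a b, exponentialPDF r x ≤ ∫⁻ _ in Set.Icc a b, ENNReal.ofReal r :=
        lintegral_mono (expPDF_le hr)
    _ = ENNReal.ofReal r * volume (Set.Icc a b) := by rw [setLIntegral_const]
    _ = ENNReal.ofReal (r * (b - a)) := by
        rw [Real.volume_Icc, ENNReal.ofReal_mul hr.le]

variable {ι : Type} [Fintype ι]

/-- The product of exponential laws. -/
noncomputable def ν (r : ι → ℝ) : Measure (ι → ℝ) := Measure.pi (fun i => expMeasure (r i))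

lemma isProb_ν {r : ι → ℝ} (hr : ∀ i, 0 < r i) : IsProbabilityMeasure (ν r) := by
  have : ∀ i, IsProbabilityMeasure (expMeasure (r i)) := fun i =>
    isProbabilityMeasure_expMeasure (hr i)
  unfold ν
  infer_instance

/-- Mean and variance of a linear form. -/
lemma lin_memLp {r : ι → ℝ} (hr : ∀ i, 0 < r i) (c : ι → ℝ) :
    MemLp (fun ξ : ι → ℝ => ∑ i, c i * ξ i) 2 (ν r) := by
  have : ∀ i, IsProbabilityMeasure (expMeasure (r i)) := fun i =>
    isProbabilityMeasure_expMeasure (hr i)
  apply memLp_finsetSum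
  intro i _
  exact (memLp_two_exp (hr i) (c i)).comp_measurePreserving
    (measurePreserving_eval (fun i => expMeasure (r i)) i)

lemma lin_mean {r : ι → ℝ} (hr : ∀ i, 0 < r i) (c : ι → ℝ) :
    ∫ ξ, ∑ i, c i * ξ i ∂(ν r) = ∑ i, c i / r i := by
  have : ∀ i, IsProbabilityMeasure (expMeasure (r i)) := fun i =>
    isProbabilityMeasure_expMeasure (hr i)
  have hmp : ∀ i, MeasurePreserving (Function.eval i) (ν r) (expMeasure (r i)) := fun i =>
    measurePreserving_eval (fun i => expMeasure (r i)) i
  have hint : ∀ i, Integrable (fun t : ℝ => c i * t) (expMeasure (r i)) := fun i =>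
    (memLp_two_exp (hr i) (c i)).integrable (by norm_num)
  rw [integral_finsetSum]
  · apply Finset.sum_congr rfl
    intro i _
    rw [← integral_exp_lin (hr i) (c i), ← (hmp i).map_eq, integral_map
      (measurable_pi_apply i).aemeasurable (by fun_prop)]
  · intro i _
    exact (hmp i).integrable_comp_of_integrable (hint i)

lemma lin_var {r : ι → ℝ} (hr : ∀ i, 0 < r i) (c : ι → ℝ) :
    Var[fun ξ : ι → ℝ => ∑ i, c i * ξ i; ν r] = ∑ i, (c i / r i) ^ 2 := by
  have : ∀ i, IsProbabilityMeasure (expMeasure (r i)) := fun i =>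
    isProbabilityMeasure_expMeasure (hr i)
  have h := variance_sum_pi (μ := fun i => expMeasure (r i)) (X := fun i t => c i * t)
    (fun i => memLp_two_exp (hr i) (c i))
  have he : (∑ i, fun ω : ι → ℝ => c i * ω i) = fun ξ : ι → ℝ => ∑ i, c i * ξ i := by
    funext ξ
    rw [Finset.sum_apply]
  rw [he] at h
  unfold ν
  rw [h]
  apply Finset.sum_congr rfl
  intro i _
  exact variance_exp_lin (hr i) (c i)

end Pool.Agent.Lib.MP_c534e4_co.H96
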