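import Mathlib

/-!
# Random linear extensions of forests through independent exponential variables: the linear map
-/

set_option autoImplicit false

namespace Pool.Agent.Lib.MP_c534e4_co.H96

open MeasureTheory ProbabilityTheory
open scoped ENNReal

variable {α : Type} [Fintype α] [PartialOrder α]

/-- The elements below `v`. -/
noncomputable def dn (v : α) : Finset α := by
  classical exact Finset.univ.filter (fun u => u ≤ v)

/-- The elements above `v`. -/
noncomputable def up (v : α) : Finset α := by
  classical exact Finset.univ.filter (fun u => v ≤ u)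

lemma mem_dn {u v : α} : u ∈ dn v ↔ u ≤ v := by simp [dn]
lemma mem_up {u v : α} : u ∈ up v ↔ v ≤ u := by simp [up]

/-- The hook length of `v`. -/
noncomputable def hk (v : α) : ℕ := (up v).card

lemma hk_pos (v : α) : 0 < hk v := Finset.card_pos.2 ⟨v, mem_up.2 le_rfl⟩

lemma hk_lt {u v : α} (h : u < v) : hk v < hk u := by
  apply Finset.card_lt_card
  rw [Finset.ssubset_iff_subset_ne]
  constructor
  · intro w hw
    rw [mem_up] at *
    exact h.le.trans hw
  · intro he
    have : u ∈ up v := by rw [he]; exact mem_up.2 le_rfl
    rw [mem_up] at this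
    exact absurd (lt_of_lt_of_le h this) (lt_irrefl _)

lemma hk_le {u v : α} (h : u ≤ v) : hk v ≤ hk u := by
  rcases h.eq_or_lt with h | h
  · rw [h]
  · exact (hk_lt h).le

/-- Arrival times. -/
noncomputable def T (ξ : α → ℝ) (v : α) : ℝ := ∑ u ∈ dn v, ξ u

/-- The zeta matrix. -/
noncomputable def Z (α : Type) [PartialOrder α] : Matrix α α ℝ := by
  classical exact fun v u => if u ≤ v then 1 else 0

lemma toLin'_Z [DecidableEq α] (ξ : α → ℝ) : Matrix.toLin' (Z α) ξ = T ξ := by
  ext v
  simp only [Matrix.toLin'_apply, Matrix.mulVec, dotProduct, Z, T, dn]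
  rw [Finset.sum_filter]
  apply Finset.sum_congr rfl
  intro u _
  by_cases h : u ≤ v <;> simp [h]

lemma det_Z [DecidableEq α] : (Z α).det = 1 := by
  classical
  have : Fintype (LinearExtension α) := inferInstanceAs (Fintype α)
  have hbt : Matrix.BlockTriangular (Z α).transpose (toLinearExtension : α →o LinearExtension α) := by
    intro i j hij
    simp only [Matrix.transpose_apply, Z]
    rw [if_neg]
    intro hle
    exact absurd (toLinearExtension.monotone hle) (not_le.2 hij)
  have h := hbt.det_fintype
  rw [Matrix.det_transpose] at h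
  rw [h]
  apply Finset.prod_eq_one
  intro k _
  have hs : Subsingleton {i : α // (toLinearExtension : α →o LinearExtension α) i = k} := by
    constructor
    intro a b
    apply Subtype.ext
    have : (toLinearExtension : α →o LinearExtension α) a.1 = toLinearExtension b.1 :=
      a.2.trans b.2.symm
    exact this
  have : ((Z α).transpose.toSquareBlock (toLinearExtension : α →o LinearExtension α) k) = 1 := by
    ext i j
    have hij : i = j := Subsingleton.elim _ _
    subst hij
    rw [Matrix.one_apply_eq]
    change (Z α) i.1 i.1 = 1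
    simp [Z]
  rw [this, Matrix.det_one]

lemma measurePreserving_T : MeasurePreserving (T : (α → ℝ) → (α → ℝ)) volume volume := by
  classical
  have h1 : Measurable (T : (α → ℝ) → (α → ℝ)) := by
    unfold T
    fun_prop
  refine ⟨h1, ?_⟩
  have hd : (Z α).det = 1 := det_Z
  have h := Real.map_matrix_volume_pi_eq_smul_volume_pi (M := Z α) (by rw [hd]; norm_num)
  rw [hd] at h
  have he : (⇑(Matrix.toLin' (Z α)) : (α → ℝ) → (α → ℝ)) = T := by
    funext ξ
    exact toLin'_Z ξ
  rw [he] at h
  rw [h]
  simp

end Pool.Agent.Lib.MP_c534e4_co.H96
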