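import Pool.Agent.Lib.MP_c534e4_co.H96.Basic

/-!
# Product of exponential laws: density
-/

set_option autoImplicit false

namespace Pool.Agent.Lib.MP_c534e4_co.H96

open MeasureTheory ProbabilityTheory
open scoped ENNReal

lemma integrable_pdf {r : ℝ} (hr : 0 < r) : Integrable (exponentialPDFReal r) := by
  refine ⟨(measurable_exponentialPDFReal r).aestronglyMeasurable, ?_⟩
  rw [hasFiniteIntegral_iff_ofReal (Filter.Eventually.of_forall (exponentialPDFReal_nonneg hr))]
  have h := lintegral_exponentialPDF_eq_one hr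
  unfold exponentialPDF at h
  rw [h]
  exact ENNReal.one_lt_top

lemma expMeasure_apply {r : ℝ} {s : Set ℝ} (hs : MeasurableSet s) :
    expMeasure r s = ∫⁻ x in s, exponentialPDF r x := by
  rw [expMeasure, gammaMeasure, withDensity_apply _ hs]
  rfl

variable {ι : Type} [Fintype ι]

lemma pi_exp_eq_withDensity (r : ι → ℝ) (hr : ∀ i, 0 < r i) :
    Measure.pi (fun i => expMeasure (r i)) =
      (volume : Measure (ι → ℝ)).withDensity (fun ξ => ∏ i, exponentialPDF (r i) (ξ i)) := by
  classical
  haveI : ∀ i, IsProbabilityMeasure (expMeasure (r i)) := fun i =>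
    isProbabilityMeasure_expMeasure (hr i)
  refine (Measure.pi_eq fun s hs => ?_)
  have hms : MeasurableSet (Set.univ.pi s) := MeasurableSet.univ_pi hs
  rw [withDensity_apply _ hms]
  set φ : ∀ i, ℝ → ℝ := fun i => (s i).indicator (exponentialPDFReal (r i)) with hφ
  have hφint : ∀ i, Integrable (φ i) := fun i => (integrable_pdf (hr i)).indicator (hs i)
  have hφnn : ∀ i x, 0 ≤ φ i x := by
    intro i x
    simp only [hφ]
    apply Set.indicator_nonneg
    intro y _
    exact exponentialPDFReal_nonneg (hr i) y
  have hprodint : Integrable (fun ξ : ι → ℝ => ∏ i, φ i (ξ i)) :=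
    Integrable.fintype_prod_dep hφint
  have h1 : ∫⁻ ξ in Set.univ.pi s, ∏ i, exponentialPDF (r i) (ξ i) =
      ∫⁻ ξ : ι → ℝ, ENNReal.ofReal (∏ i, φ i (ξ i)) := by
    rw [← lintegral_indicator hms]
    apply lintegral_congr
    intro ξ
    rw [ENNReal.ofReal_prod_of_nonneg (fun i _ => hφnn i _)]
    by_cases h : ξ ∈ Set.univ.pi s
    · rw [Set.indicator_of_mem h]
      apply Finset.prod_congr rfl
      intro i _
      simp only [hφ]
      rw [Set.indicator_of_mem (h i (Set.mem_univ i))]
      rfl
    · rw [Set.indicator_of_notMem h]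
      symm
      rw [Set.mem_univ_pi] at h
      push Not at h
      obtain ⟨i, hi⟩ := h
      apply Finset.prod_eq_zero (Finset.mem_univ i)
      simp only [hφ]
      rw [Set.indicator_of_notMem hi, ENNReal.ofReal_zero]
  rw [h1, ← ofReal_integral_eq_lintegral_ofReal hprodint
    (Filter.Eventually.of_forall fun ξ => Finset.prod_nonneg fun i _ => hφnn i _),
    integral_fintype_prod_volume_eq_prod, ENNReal.ofReal_prod_of_nonneg
      (fun i _ => integral_nonneg (hφnn i))]
  apply Finset.prod_congr rfl
  intro i _
  rw [ofReal_integral_eq_lintegral_ofReal (hφint i)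
    (Filter.Eventually.of_forall fun x => hφnn i x), expMeasure_apply (hs i),
    ← lintegral_indicator (hs i)]
  apply lintegral_congr
  intro x
  simp only [hφ]
  by_cases hx : x ∈ s i
  · rw [Set.indicator_of_mem hx, Set.indicator_of_mem hx]
    rfl
  · rw [Set.indicator_of_notMem hx, Set.indicator_of_notMem hx, ENNReal.ofReal_zero]

end Pool.Agent.Lib.MP_c534e4_co.H96
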